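import Pool.Agent.H60.SYM.Targets

/-! The evaluation equation of circuits and the values of the gates under automorphisms. -/

namespace Pool.Agent.H99.SYM

open Finset Pool.Agent.H60.SYM

theorem val : T_VAL := by
  intro I s C φ g
  constructor
  · intro i hi
    rw [Circuit.val, hi]
  · intro hg
    rw [Circuit.val, hg]
    simp only
    congr 1
    funext c
    refine Finset.card_bij (fun h _ => h.1) ?_ ?_ ?_
    · intro h hh
      simpa using hh
    · intro a _ b _ hab
      exact Subtype.ext hab
    · intro h hh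
      simp only [mem_filter, mem_univ, true_and] at hh
      refine ⟨⟨h, C.acyclic g h (by rw [hh.1]; omega)⟩, ?_, rfl⟩
      simpa using hh

theorem ai {s : ℕ} (a : Equiv.Perm (Fin s)) (g : Fin s) : a (a⁻¹ g) = g :=
  a.apply_symm_apply g

theorem aut : T_AUT := by
  intro I s C
  refine ⟨⟨rfl, fun g => by simp, fun g => rfl, fun g h => rfl⟩, ?_, ?_, ?_⟩
  · rintro γ₁ γ₂ a₁ a₂ ⟨h1, h2, h3, h4⟩ ⟨k1, k2, k3, k4⟩
    refine ⟨by rw [Equiv.Perm.mul_apply, k1, h1], fun g => ?_, fun g => ?_, fun g h => ?_⟩
    · rw [Equiv.Perm.mul_apply, h2, k2, Option.map_map]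
    · rw [Equiv.Perm.mul_apply, h3, k3]
    · rw [Equiv.Perm.mul_apply, Equiv.Perm.mul_apply, h4, k4]
  · rintro γ γ' a hγ ⟨h1, h2, h3, h4⟩
    refine ⟨?_, fun g => ?_, fun g => ?_, fun g h => ?_⟩
    · rw [Equiv.Perm.inv_eq_iff_eq]
      exact h1.symm
    · have h := h2 (a⁻¹ g)
      rw [ai] at h
      rw [h, Option.map_map]
      have : γ' ∘ γ = id := funext hγ
      rw [this, Option.map_id, id]
    · have h := h3 (a⁻¹ g)
      rw [ai] at h
      exact h.symm
    · have h' := h4 (a⁻¹ g) (a⁻¹ h)
      rw [ai, ai] at h'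
      exact h'.symm
  · rintro γ a ⟨h1, h2, h3, h4⟩ φ g
    induction g using WellFoundedLT.induction with
    | ind g ih =>
      cases hg : C.inp g with
      | some i =>
        rw [(val I s C _ g).1 i hg, (val I s C _ (a g)).1 (γ i) (by rw [h2, hg]; rfl)]
      | none =>
        rw [(val I s C _ g).2 hg, (val I s C _ (a g)).2 (by rw [h2, hg]; rfl), h3]
        congr 1
        funext c
        refine Finset.card_bij (fun h _ => a h) ?_ ?_ ?_
        · intro h hh
          simp only [mem_filter, mem_univ, true_and] at hh ⊢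
          rw [h4, ← ih h (C.acyclic g h (by rw [hh.1]; omega))]
          exact hh
        · intro h _ h' _ hab
          exact a.injective hab
        · intro h hh
          simp only [mem_filter, mem_univ, true_and] at hh
          refine ⟨a⁻¹ h, ?_, ai a h⟩
          have h5 : C.lab g (a⁻¹ h) = c + 1 := by
            rw [← h4, ai]
            exact hh.1
          simp only [mem_filter, mem_univ, true_and]
          refine ⟨h5, ?_⟩
          rw [ih _ (C.acyclic g _ (by rw [h5]; omega)), ai]
          exact hh.2

end Pool.Agent.H99.SYM
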