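import Pool.Agent.H60.SYM.Targets

/-! The action of the group on the positions. -/

namespace Pool.Agent.H99.SYM

open Finset Pool.Agent.H60.SYM

theorem toB_add (x y : ZMod 2) : toB (x + y) = xor (toB x) (toB y) := by
  revert x y
  decide

theorem toB_zero : toB 0 = false := by decide

theorem rp_inl {m d M T : ℕ} {P : Type} (E : Fin m ≃ (Blocks M T × (Fin d → ZMod 2)) ⊕ P)
    {j : Fin m} {b : Blocks M T} {z : Fin d → ZMod 2} (κ : Blocks M T → Fin d → ZMod 2)
    (h : E j = Sum.inl (b, z)) : E (rowPerm E κ j) = Sum.inl (b, z + κ b) := by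
  unfold rowPerm
  simp [h, Equiv.prodShear]

theorem rp_inr {m d M T : ℕ} {P : Type} (E : Fin m ≃ (Blocks M T × (Fin d → ZMod 2)) ⊕ P)
    {j : Fin m} {p : P} (κ : Blocks M T → Fin d → ZMod 2)
    (h : E j = Sum.inr p) : rowPerm E κ j = j := by
  unfold rowPerm
  simp only [Equiv.trans_apply, h, Equiv.sumCongr_apply, Sum.map_inr, Equiv.refl_apply]
  rw [← h, Equiv.symm_apply_apply]

theorem act' : T_ACT := by
  intro m n d M T P E
  refine ⟨?_, ?_, fun j b z κ h => rp_inl E κ h, fun j p κ h => rp_inr E κ h⟩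
  · rintro ⟨κ, f⟩ ⟨κ', f'⟩ ⟨j, v, β⟩
    simp only [act, move, Prod.mk_add_mk, Equiv.Perm.one_apply, Prod.mk.injEq, true_and, Pi.add_apply]
    refine ⟨?_, ?_⟩
    · apply E.injective
      cases hj : E j with
      | inl bz =>
        obtain ⟨b, z⟩ := bz
        rw [rp_inl E (κ + κ') hj, rp_inl E κ (rp_inl E κ' hj)]
        simp only [Pi.add_apply]
        rw [add_comm (κ b), add_assoc]
      | inr p =>
        rw [rp_inr E (κ + κ') hj, rp_inr E κ' hj, rp_inr E κ hj]
    · rw [toB_add]
      cases toB (f v) <;> cases toB (f' v) <;> cases β <;> rfl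
  · rintro ⟨j, v, β⟩
    simp only [act, move, Prod.fst_zero, Prod.snd_zero, Equiv.Perm.one_apply, Prod.mk.injEq,
      true_and, Pi.zero_apply, toB_zero, Bool.false_xor, and_true]
    apply E.injective
    cases hj : E j with
    | inl bz =>
      obtain ⟨b, z⟩ := bz
      rw [rp_inl E 0 hj]
      simp
    | inr p => rw [rp_inr E 0 hj, hj]

end Pool.Agent.H99.SYM
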