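import Pool.Agent.H99.SYM.Act

/-! Compatibility of the two formulas on one position. -/

namespace Pool.Agent.H99.SYM

open Finset Pool.Agent.H60.SYM

theorem toB_iff (x : ZMod 2) : toB x = false ↔ x = 0 := by
  revert x
  decide

theorem z2 (x : ZMod 2) : x + x = 0 := by
  revert x
  decide

theorem toB_xor (x y : ZMod 2) (β : Bool) : (toB (x + y) ≠ xor (toB y) β) ↔ (toB x ≠ β) := by
  rw [toB_add]
  cases toB x <;> cases toB y <;> cases β <;> simp

theorem NN_single {n d M T : ℕ} (e : Fin M → Fin (d + 1) → Fin n) (b : Blocks M T) (a : ZMod 2)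
    (w : Fin d → ZMod 2) (u : VV n d M T) :
    NN e ((Pi.single b.1 a, Pi.single b w) : YY d M T) u =
      ∑ p, a * u.2 (e b.1 p) + ∑ p : Fin d, w p * (u.1 b p + u.2 (e b.1 p.succ)) := by
  unfold NN
  congr 1
  · rw [Finset.sum_eq_single b.1]
    · simp
    · intro i _ hi
      simp [Pi.single_eq_of_ne hi]
    · simp
  · rw [Finset.sum_eq_single b]
    · simp
    · intro i _ hi
      simp [Pi.single_eq_of_ne hi]
    · simp

theorem wt_single {ι : Type} [Fintype ι] [DecidableEq ι] (i : ι) (a : ZMod 2) :
    wt (Pi.single i a) ≤ 1 := by
  unfold wt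
  rw [Finset.card_le_one]
  intro x hx y hy
  simp only [mem_filter, mem_univ, true_and] at hx hy
  have h1 : x = i := by
    by_contra h
    exact hx (Pi.single_eq_of_ne h _)
  have h2 : y = i := by
    by_contra h
    exact hy (Pi.single_eq_of_ne h _)
  rw [h1, h2]

theorem wy_single {d M T : ℕ} (b : Blocks M T) (a : ZMod 2) (w : Fin d → ZMod 2) :
    wy ((Pi.single b.1 a, Pi.single b w) : YY d M T) ≤ 2 := by
  unfold wy
  have h1 := wt_single b.1 a
  have h2 : (univ.filter fun b' => ((Pi.single b.1 a, Pi.single b w) : YY d M T).2 b' ≠ 0).card ≤ 1 := by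
    rw [Finset.card_le_one]
    intro x hx y hy
    simp only [mem_filter, mem_univ, true_and] at hx hy
    have h1 : x = b := by
      by_contra h
      exact hx (Pi.single_eq_of_ne h _)
    have h2 : y = b := by
      by_contra h
      exact hy (Pi.single_eq_of_ne h _)
    rw [h1, h2]
  classical
  convert Nat.add_le_add h1 h2 using 2

theorem inp : T_INP := by
  intro m n d M T P e E v₀ c θ he hθ i u H
  obtain ⟨j, x, β⟩ := i
  obtain ⟨κ, F⟩ := u
  cases hj : E j with
  | inr p =>
    have h1 : act E ((κ, F) : VV n d M T) (j, x, β) = (j, x, xor (toB (F x)) β) := by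
      simp only [act, move, Equiv.Perm.one_apply, rp_inr E κ hj]
    rw [h1]
    unfold inst
    simp only [hj]
  | inl bz =>
    obtain ⟨b, z⟩ := bz
    have h1 : act E ((κ, F) : VV n d M T) (j, x, β) = (rowPerm E κ j, x, xor (toB (F x)) β) := by
      simp only [act, move, Equiv.Perm.one_apply]
    rw [h1]
    unfold inst
    simp only [hj, rp_inl E κ hj, Pi.zero_apply]
    rw [decide_eq_decide]
    refine exists_congr fun p => ?_
    refine and_congr_right fun hp => ?_
    have hfix : ∀ u' : VV n d M T, act E u' (j, x, β) = (j, x, β) → u'.1 b = 0 ∧ u'.2 x = 0 := by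
      intro u' hu'
      simp only [act, move, Equiv.Perm.one_apply, Prod.mk.injEq, true_and] at hu'
      constructor
      · have h2 := rp_inl E u'.1 hj
        rw [hu'.1, hj] at h2
        simpa using h2
      · have h3 : toB (u'.2 x) = false := by
          have := hu'.2
          revert this
          cases toB (u'.2 x) <;> cases β <;> simp
        exact (toB_iff _).1 h3
    have key : pat (c b.1) (z + κ b) p = pat 0 z p + F x := by
      rcases Fin.eq_zero_or_eq_succ p with rfl | ⟨p', rfl⟩
      · have h3 := H (Pi.single b.1 1, Pi.single b fun _ => 1) ((wy_single b 1 _).trans hθ) ?_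
        · rw [NN_single] at h3
          simp only [one_mul] at h3
          rw [Fin.sum_univ_succ, Finset.sum_add_distrib] at h3
          have h4 : ∑ j, (Pi.single b.1 1 : Fin M → ZMod 2) j * c j = c b.1 := by
            rw [Finset.sum_eq_single b.1]
            · simp
            · intro i _ hi
              simp [Pi.single_eq_of_ne hi]
            · simp
          rw [h4, hp] at h3
          have h5 := z2 (∑ p : Fin d, F (e b.1 p.succ))
          have h6 := z2 (∑ p, κ b p)
          simp only [pat, Fin.cons_zero, Pi.add_apply, Finset.sum_add_distrib]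
          rw [← h3]
          linear_combination h5 + h6
        · intro u' hu'
          obtain ⟨k1, k2⟩ := hfix u' hu'
          rw [NN_single]
          simp only [one_mul, k1, Pi.zero_apply, zero_add]
          rw [Fin.sum_univ_succ, hp, k2, zero_add, z2]
      · have h3 := H (Pi.single b.1 0, Pi.single b (Pi.single p' 1))
          ((wy_single b 0 _).trans hθ) ?_
        · rw [NN_single] at h3
          simp only [zero_mul, Finset.sum_const_zero, zero_add, Pi.single_zero, Pi.zero_apply] at h3
          rw [Finset.sum_eq_single p'] at h3
          · rw [Pi.single_eq_same, one_mul, hp] at h3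
            simp only [pat, Fin.cons_succ, Pi.add_apply]
            linear_combination h3 - z2 (F x)
          · intro i _ hi
            simp [Pi.single_eq_of_ne hi]
          · simp
        · intro u' hu'
          obtain ⟨k1, k2⟩ := hfix u' hu'
          rw [NN_single]
          simp only [zero_mul, Finset.sum_const_zero, zero_add, k1, Pi.zero_apply]
          rw [Finset.sum_eq_single p']
          · rw [Pi.single_eq_same, one_mul, hp, k2]
          · intro i _ hi
            simp [Pi.single_eq_of_ne hi]
          · simp
    rw [key, toB_xor]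

end Pool.Agent.H99.SYM
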